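import Pool.Agent.Helper36.KL.Goals2

/-!
# Quintic gKdV: the class `SmoothSol` is contained in the class `IsGK` (packet SG)
-/

namespace Pool.Agent.Helper8.KL

open Set Filter Topology MeasureTheory Pool.Agent.Helper36.KL
open scoped ContDiff

/-- Cauchy-Schwarz on an interval -/
theorem cs_interval {f : ℝ → ℝ} {t s : ℝ} (hts : t ≤ s) (hf : ContinuousOn f (Icc t s)) :
    (∫ σ in t..s, f σ) ^ 2 ≤ (s - t) * ∫ σ in t..s, f σ ^ 2 := by
  rcases hts.eq_or_lt with h | h
  · subst h
    simp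
  · have i1 : IntervalIntegrable f volume t s := hf.intervalIntegrable_of_Icc hts
    have i2 : IntervalIntegrable (fun σ => f σ ^ 2) volume t s := (hf.pow 2).intervalIntegrable_of_Icc hts
    have hpos : 0 < s - t := by linarith
    obtain ⟨c, hc⟩ : ∃ c, c = (∫ σ in t..s, f σ) / (s - t) := ⟨_, rfl⟩
    have h1 : 0 ≤ ∫ σ in t..s, (f σ - c) ^ 2 :=
      intervalIntegral.integral_nonneg hts fun σ _ => sq_nonneg _
    have h2 : ∫ σ in t..s, (f σ - c) ^ 2 =
        (∫ σ in t..s, f σ ^ 2) - 2 * c * (∫ σ in t..s, f σ) + c ^ 2 * (s - t) := by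
      have h3 : (fun σ => (f σ - c) ^ 2) = fun σ => (f σ ^ 2 - 2 * c * f σ) + c ^ 2 := by
        funext σ
        ring
      rw [h3, intervalIntegral.integral_add (i2.sub (i1.const_mul _)) (intervalIntegrable_const),
        intervalIntegral.integral_sub i2 (i1.const_mul _), intervalIntegral.integral_const_mul,
        intervalIntegral.integral_const, smul_eq_mul]
      ring
    rw [h2] at h1
    have h4 : ∫ σ in t..s, f σ = c * (s - t) := by
      rw [hc]
      field_simp
    rw [h4] at h1 ⊢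
    have h5 : 0 ≤ (∫ σ in t..s, f σ ^ 2) - c ^ 2 * (s - t) := by linarith
    nlinarith [mul_nonneg hpos.le h5]

/-- Minkowski type inequality for the integral of a family of square integrable functions -/
theorem int_sq_le {h : ℝ → ℝ → ℝ} {t s L : ℝ} (hts : t ≤ s)
    (hc : ContinuousOn (fun p : ℝ × ℝ => h p.1 p.2) (Icc t s ×ˢ univ))
    (hi : ∀ σ ∈ Icc t s, Integrable (fun x => h σ x ^ 2))
    (hL : ∀ σ ∈ Icc t s, ∫ x, h σ x ^ 2 ≤ L) :
    ∫ x, (∫ σ in t..s, h σ x) ^ 2 ≤ (s - t) ^ 2 * L := by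
  have hm : AEStronglyMeasurable (fun p : ℝ × ℝ => h p.1 p.2 ^ 2)
      ((volume.restrict (Icc t s)).prod (volume : Measure ℝ)) := by
    have h1 : AEStronglyMeasurable (fun p : ℝ × ℝ => h p.1 p.2 ^ 2)
        (volume.restrict (Icc t s ×ˢ univ)) :=
      (hc.pow 2).aestronglyMeasurable (measurableSet_Icc.prod MeasurableSet.univ)
    rw [Measure.volume_eq_prod, ← Measure.prod_restrict, Measure.restrict_univ] at h1
    exact h1
  have hae : ∀ᵐ σ ∂(volume.restrict (Icc t s)), Integrable (fun x => h σ x ^ 2) :=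
    (ae_restrict_iff' measurableSet_Icc).2 (ae_of_all _ hi)
  have hnorm : ∀ σ, ∫ x, ‖h σ x ^ 2‖ = ∫ x, h σ x ^ 2 := by
    intro σ
    refine integral_congr_ae (ae_of_all _ fun x => ?_)
    exact Real.norm_of_nonneg (sq_nonneg _)
  have hint : Integrable (Function.uncurry fun σ x => h σ x ^ 2)
      ((volume.restrict (Icc t s)).prod (volume : Measure ℝ)) := by
    refine (integrable_prod_iff hm).2 ⟨hae, ?_⟩
    refine Integrable.mono' (integrable_const L) hm.norm.integral_prod_right' ?_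
    refine (ae_restrict_iff' measurableSet_Icc).2 (ae_of_all _ fun σ hσ => ?_)
    rw [Real.norm_of_nonneg (integral_nonneg fun x => norm_nonneg _)]
    exact (hnorm σ).trans_le (hL σ hσ)
  have hconv : ∀ f : ℝ → ℝ, ∫ σ in t..s, f σ = ∫ σ in Icc t s, f σ := by
    intro f
    rw [intervalIntegral.integral_of_le hts, integral_Icc_eq_integral_Ioc]
  have hpt : ∀ x, (∫ σ in t..s, h σ x) ^ 2 ≤ (s - t) * ∫ σ in Icc t s, h σ x ^ 2 := by
    intro x
    rw [← hconv]
    apply cs_interval hts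
    exact hc.comp (f := fun σ : ℝ => (σ, x)) (by fun_prop) fun σ hσ => ⟨hσ, mem_univ _⟩
  calc ∫ x, (∫ σ in t..s, h σ x) ^ 2 ≤ ∫ x, (s - t) * ∫ σ in Icc t s, h σ x ^ 2 := by
        apply integral_mono_of_nonneg (ae_of_all _ fun x => sq_nonneg _) _ (ae_of_all _ hpt)
        exact hint.integral_prod_right.const_mul _
    _ = (s - t) * ∫ σ in Icc t s, ∫ x, h σ x ^ 2 := by
        rw [integral_const_mul, integral_integral_swap hint]
    _ ≤ (s - t) * ∫ σ in Icc t s, L := by
        apply mul_le_mul_of_nonneg_left _ (by linarith)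
        apply setIntegral_mono_on hint.integral_prod_left (integrable_const L) measurableSet_Icc
        exact fun σ hσ => hL σ hσ
    _ = (s - t) ^ 2 * L := by
        rw [← hconv, intervalIntegral.integral_const, smul_eq_mul]
        ring

/-- the same for arbitrary end points in `[a, b]` -/
theorem int_sq_le' {h : ℝ → ℝ → ℝ} {a b t s L : ℝ} (ht : t ∈ Icc a b) (hs : s ∈ Icc a b)
    (hc : ContinuousOn (fun p : ℝ × ℝ => h p.1 p.2) (Icc a b ×ˢ univ))
    (hi : ∀ σ ∈ Icc a b, Integrable (fun x => h σ x ^ 2))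
    (hL : ∀ σ ∈ uIcc t s, ∫ x, h σ x ^ 2 ≤ L) :
    ∫ x, (∫ σ in t..s, h σ x) ^ 2 ≤ (s - t) ^ 2 * L := by
  rcases le_total t s with hts | hts
  · rw [uIcc_of_le hts] at hL
    have hsub : Icc t s ⊆ Icc a b := Icc_subset_Icc ht.1 hs.2
    exact int_sq_le hts (hc.mono (prod_mono hsub subset_rfl)) (fun σ hσ => hi σ (hsub hσ)) hL
  · rw [uIcc_of_ge hts] at hL
    have hsub : Icc s t ⊆ Icc a b := Icc_subset_Icc hs.1 ht.2
    have h1 := int_sq_le hts (hc.mono (prod_mono hsub subset_rfl)) (fun σ hσ => hi σ (hsub hσ)) hL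
    have h2 : ∀ x, (∫ σ in t..s, h σ x) ^ 2 = (∫ σ in s..t, h σ x) ^ 2 := by
      intro x
      rw [intervalIntegral.integral_symm, neg_sq]
    simp only [h2]
    refine h1.trans (le_of_eq ?_)
    ring

/-- fundamental theorem of calculus with one-sided derivatives -/
theorem ftc_within {f f' : ℝ → ℝ} {a b t s : ℝ} (ht : t ∈ Icc a b) (hs : s ∈ Icc a b)
    (hd : ∀ σ ∈ Icc a b, HasDerivWithinAt f (f' σ) (Icc a b) σ) (hc : ContinuousOn f' (Icc a b)) :
    ∫ σ in t..s, f' σ = f s - f t := by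
  have key : ∀ t s, t ∈ Icc a b → s ∈ Icc a b → t ≤ s → ∫ σ in t..s, f' σ = f s - f t := by
    intro t s ht hs hts
    have hsub : Icc t s ⊆ Icc a b := Icc_subset_Icc ht.1 hs.2
    apply intervalIntegral.integral_eq_sub_of_hasDerivAt_of_le hts
    · exact fun σ hσ => ((hd σ (hsub hσ)).continuousWithinAt).mono hsub
    · intro σ hσ
      exact (hd σ (hsub (Ioo_subset_Icc_self hσ))).hasDerivAt
        (Icc_mem_nhds (lt_of_le_of_lt ht.1 hσ.1) (lt_of_lt_of_le hσ.2 hs.2))
    · exact (hc.mono hsub).intervalIntegrable_of_Icc hts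
  rcases le_total t s with hts | hts
  · exact key t s ht hs hts
  · rw [intervalIntegral.integral_symm, key s t hs ht hts]
    ring

theorem D_FX (k : ℕ) (v : X) : D k (FX v) = -(D (k + 3) v) - D (k + 1) (Pool.Agent.Helper71.KL.p5 v) := by
  rw [Pool.Agent.Helper71.KL.FX_eq, map_sub, map_neg, Pool.Agent.Helper71.KL.D_D,
    Pool.Agent.Helper71.KL.D_D]

theorem iter_Fun {u : ℝ → ℝ} (hu : u ∈ HI) (k : ℕ) (x : ℝ) :
    iteratedDeriv k (Fun u) x = -(iteratedDeriv (k + 3) u x) - iteratedDeriv (k + 1) (u ^ 5) x := by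
  have h := congrArg (fun v : X => v.1 x) (D_FX k ⟨u, hu⟩)
  exact h

theorem sg : G_SG := by
  classical
  intro a b u h
  have hmem : ∀ t ∈ Icc a b, u t ∈ HI := fun t ht => ⟨h.hinf.smooth t ht, fun k => h.hinf.memLp k t ht⟩
  have hw : ∀ t ∈ Icc a b, Fun (u t) ∈ HI := fun t ht => Fun_mem (hmem t ht)
  -- joint continuity of the derivatives of the right side
  have hc5 : ∀ k, ContinuousOn (fun p : ℝ × ℝ => iteratedDeriv k (u p.1 ^ 5) p.2) (Icc a b ×ˢ univ) := by
    intro k
    have hm2 : ∀ t ∈ Icc a b, u t * u t ∈ HI := fun t ht => mul_mem (hmem t ht) (hmem t ht)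
    have c2 := Pool.Agent.Helper62.KL.contmul hmem hmem h.hinf.cont h.hinf.cont
    have hm4 : ∀ t ∈ Icc a b, (u t * u t) * (u t * u t) ∈ HI := fun t ht => mul_mem (hm2 t ht) (hm2 t ht)
    have c4 := Pool.Agent.Helper62.KL.contmul hm2 hm2 c2 c2
    have c5 := Pool.Agent.Helper62.KL.contmul hm4 hmem c4 h.hinf.cont k
    refine c5.congr fun p _ => ?_
    have h5 : u p.1 ^ 5 = (u p.1 * u p.1) * (u p.1 * u p.1) * u p.1 := by ring
    simp only [h5]
  have hcw : ∀ k, ContinuousOn (fun p : ℝ × ℝ => iteratedDeriv k (Fun (u p.1)) p.2) (Icc a b ×ˢ univ) := by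
    intro k
    refine ((h.hinf.cont (k + 3)).neg.sub (hc5 (k + 1))).congr fun p hp => ?_
    exact iter_Fun (hmem p.1 hp.1) k p.2
  -- the curve in `X`
  obtain ⟨U, hU⟩ : ∃ U : ℝ → X, ∀ t ∈ Icc a b, (U t).1 = u t := by
    refine ⟨fun t => if ht : t ∈ Icc a b then ⟨u t, hmem t ht⟩ else 0, fun t ht => ?_⟩
    simp [ht]
  have hFU : ∀ t ∈ Icc a b, (FX (U t)).1 = Fun (u t) := by
    intro t ht
    show Fun (U t).1 = Fun (u t)
    rw [hU t ht]
  have hBB : ∀ m, ∃ L, ∀ t ∈ Icc a b, BB m (U t) (U t) ≤ L := by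
    intro m
    choose L hL using h.hinf.bound
    refine ⟨∑ k ∈ Finset.range (m + 1), L k, fun t ht => ?_⟩
    rw [Pool.Agent.Helper71.KL.BB_diag, hU t ht]
    exact Finset.sum_le_sum fun k _ => hL k t ht
  have hlip := (Pool.Agent.Helper71.KL.lip Pool.Agent.Helper83.KL.pr).2
  have hBB0 : ∀ m, BB m (0 : X) (0 : X) = 0 := fun m => by simp
  have hFbd : ∀ m, ∃ L, 0 ≤ L ∧ ∀ t ∈ Icc a b, BB m (FX (U t)) (FX (U t)) ≤ L := by
    intro m
    obtain ⟨L, hL⟩ := hBB (m + 3)
    obtain ⟨C, hC⟩ := hlip m |L|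
    refine ⟨|C| * |L|, by positivity, fun t ht => ?_⟩
    have h1 := hC (U t) 0 ((hL t ht).trans (le_abs_self L)) (by rw [hBB0]; exact abs_nonneg L)
    rw [Pool.Agent.Helper69.KL.FX_zero, sub_zero, sub_zero] at h1
    refine h1.trans ?_
    have h2 := Pool.Agent.Helper71.KL.BB_nonneg (m + 3) (U t)
    calc C * BB (m + 3) (U t) (U t) ≤ |C| * BB (m + 3) (U t) (U t) :=
          mul_le_mul_of_nonneg_right (le_abs_self C) h2
      _ ≤ |C| * |L| := mul_le_mul_of_nonneg_left ((hL t ht).trans (le_abs_self L)) (abs_nonneg C)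
  have hle : ∀ (m : ℕ) (w : X), ∫ x, iteratedDeriv m w.1 x ^ 2 ≤ BB m w w := by
    intro m w
    rw [Pool.Agent.Helper71.KL.BB_diag]
    exact Finset.single_le_sum (f := fun k => ∫ x, iteratedDeriv k w.1 x ^ 2)
      (fun k _ => integral_nonneg fun x => sq_nonneg _) (Finset.mem_range.2 (Nat.lt_succ_self m))
  -- derivative in time
  have hder : ∀ k x, ∀ t ∈ Icc a b,
      HasDerivWithinAt (fun s => iteratedDeriv k (u s) x) (iteratedDeriv k (Fun (u t)) x) (Icc a b) t := by
    intro k x t ht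
    have h1 := h.eqn k t ht x
    rw [Fun_eq_flux (hmem t ht)]
    exact h1
  have hftc : ∀ k x t s, t ∈ Icc a b → s ∈ Icc a b →
      ∫ σ in t..s, iteratedDeriv k (Fun (u σ)) x = iteratedDeriv k (u s) x - iteratedDeriv k (u t) x := by
    intro k x t s ht hs
    refine ftc_within ht hs (hder k x) ?_
    exact (hcw k).comp (f := fun σ : ℝ => (σ, x)) (by fun_prop) fun σ hσ => ⟨hσ, mem_univ _⟩
  -- (1) Lipschitz bound in all the norms
  have hL1 : ∀ m, ∃ C, 0 ≤ C ∧ ∀ t ∈ Icc a b, ∀ s ∈ Icc a b,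
      BB m (U s - U t) (U s - U t) ≤ C * (s - t) ^ 2 := by
    intro m
    obtain ⟨L, hL0, hL⟩ := hFbd m
    refine ⟨(m + 1) * L, by positivity, fun t ht s hs => ?_⟩
    rw [Pool.Agent.Helper71.KL.BB_diag]
    have h1 : ∀ k ∈ Finset.range (m + 1), ∫ x, iteratedDeriv k (U s - U t).1 x ^ 2 ≤ (s - t) ^ 2 * L := by
      intro k hk
      have h2 := int_sq_le' (h := fun σ x => iteratedDeriv k (Fun (u σ)) x) (L := L) ht hs (hcw k)
        (fun σ hσ => int_sq (iter_mem (hw σ hσ) k))
        (fun σ hσ => by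
          have hσ' : σ ∈ Icc a b := (uIcc_subset_Icc ht hs) hσ
          refine le_trans ?_ (hL σ hσ')
          rw [← hFU σ hσ']
          refine (hle k _).trans (Pool.Agent.Helper71.KL.BB_mono ?_ _)
          have := Finset.mem_range.1 hk
          omega)
      refine le_trans (le_of_eq ?_) h2
      refine integral_congr_ae (ae_of_all _ fun x => ?_)
      show iteratedDeriv k (U s - U t).1 x ^ 2 = (∫ σ in t..s, iteratedDeriv k (Fun (u σ)) x) ^ 2
      rw [hftc k x t s ht hs]
      have h3 : iteratedDeriv k (U s - U t).1 x = (D k (U s) - D k (U t)).1 x := by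
        rw [← map_sub]
        rfl
      rw [h3]
      show (iteratedDeriv k (U s).1 x - iteratedDeriv k (U t).1 x) ^ 2 = _
      rw [hU s hs, hU t ht]
    refine (Finset.sum_le_sum h1).trans (le_of_eq ?_)
    rw [Finset.sum_const, Finset.card_range, nsmul_eq_mul]
    push_cast
    ring
  -- (2) Lipschitz bound of the right side
  have hL2 : ∀ m, ∃ C, 0 ≤ C ∧ ∀ t ∈ Icc a b, ∀ s ∈ Icc a b,
      BB m (FX (U s) - FX (U t)) (FX (U s) - FX (U t)) ≤ C * (s - t) ^ 2 := by
    intro m
    obtain ⟨L, hL⟩ := hBB (m + 3)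
    obtain ⟨C, hC⟩ := hlip m L
    obtain ⟨C', hC'0, hC'⟩ := hL1 (m + 3)
    refine ⟨|C| * C', by positivity, fun t ht s hs => ?_⟩
    refine (hC _ _ (hL s hs) (hL t ht)).trans ?_
    have h2 := Pool.Agent.Helper71.KL.BB_nonneg (m + 3) (U s - U t)
    calc C * BB (m + 3) (U s - U t) (U s - U t) ≤ |C| * BB (m + 3) (U s - U t) (U s - U t) :=
          mul_le_mul_of_nonneg_right (le_abs_self C) h2
      _ ≤ |C| * (C' * (s - t) ^ 2) := mul_le_mul_of_nonneg_left (hC' t ht s hs) (abs_nonneg C)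
      _ = |C| * C' * (s - t) ^ 2 := by ring
  -- (3) the second order estimate
  have hL3 : ∀ k, ∃ C, 0 ≤ C ∧ ∀ t ∈ Icc a b, ∀ s ∈ Icc a b,
      ∫ x, iteratedDeriv k (u s - u t - (s - t) • Fun (u t)) x ^ 2 ≤ C * (s - t) ^ 4 := by
    intro k
    obtain ⟨C, hC0, hC⟩ := hL2 k
    refine ⟨C, hC0, fun t ht s hs => ?_⟩
    have hct : Continuous (fun x => iteratedDeriv k (Fun (u t)) x) :=
      (contDiff_iter (hw t ht).1 k).continuous
    have h2 := int_sq_le' (h := fun σ x => iteratedDeriv k (Fun (u σ)) x - iteratedDeriv k (Fun (u t)) x)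
      (L := C * (s - t) ^ 2) ht hs ((hcw k).sub (hct.comp continuous_snd).continuousOn)
      (fun σ hσ => by
        have h3 := int_sq (iter_mem (HI.sub_mem (hw σ hσ) (hw t ht)) k)
        refine h3.congr (ae_of_all _ fun x => ?_)
        have h4 : iteratedDeriv k (Fun (u σ) - Fun (u t)) x =
            (D k (⟨_, hw σ hσ⟩ - ⟨_, hw t ht⟩ : X)).1 x := rfl
        show iteratedDeriv k (Fun (u σ) - Fun (u t)) x ^ 2 = _
        rw [h4, map_sub]
        rfl)
      (fun σ hσ => by
        have hσ' : σ ∈ Icc a b := (uIcc_subset_Icc ht hs) hσ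
        have h3 : ∫ x, (iteratedDeriv k (Fun (u σ)) x - iteratedDeriv k (Fun (u t)) x) ^ 2 =
            ∫ x, iteratedDeriv k (FX (U σ) - FX (U t)).1 x ^ 2 := by
          refine integral_congr_ae (ae_of_all _ fun x => ?_)
          have h4 : iteratedDeriv k (FX (U σ) - FX (U t)).1 x = (D k (FX (U σ)) - D k (FX (U t))).1 x := by
            rw [← map_sub]
            rfl
          show (iteratedDeriv k (Fun (u σ)) x - iteratedDeriv k (Fun (u t)) x) ^ 2 =
            iteratedDeriv k (FX (U σ) - FX (U t)).1 x ^ 2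
          rw [h4, ← hFU σ hσ', ← hFU t ht]
          rfl
        show ∫ x, (iteratedDeriv k (Fun (u σ)) x - iteratedDeriv k (Fun (u t)) x) ^ 2 ≤ C * (s - t) ^ 2
        rw [h3]
        refine (hle k _).trans ((hC t ht σ hσ').trans ?_)
        apply mul_le_mul_of_nonneg_left _ hC0
        have h5 : |σ - t| ≤ |s - t| := by
          rw [abs_sub_comm s t, abs_sub_comm σ t]
          rcases le_total t s with hts | hts
          · rw [uIcc_of_le hts] at hσ
            rw [abs_of_nonpos (by linarith [hσ.1]), abs_of_nonpos (by linarith)]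
            linarith [hσ.2]
          · rw [uIcc_of_ge hts] at hσ
            rw [abs_of_nonneg (by linarith [hσ.2]), abs_of_nonneg (by linarith)]
            linarith [hσ.1]
        exact sq_le_sq.mpr h5)
    refine le_trans (le_of_eq ?_) (h2.trans (le_of_eq ?_))
    · refine integral_congr_ae (ae_of_all _ fun x => ?_)
      show iteratedDeriv k (u s - u t - (s - t) • Fun (u t)) x ^ 2 =
        (∫ σ in t..s, (iteratedDeriv k (Fun (u σ)) x - iteratedDeriv k (Fun (u t)) x)) ^ 2
      have hcx : ContinuousOn (fun σ => iteratedDeriv k (Fun (u σ)) x) (Icc a b) :=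
        (hcw k).comp (f := fun σ : ℝ => (σ, x)) (by fun_prop) fun σ hσ => ⟨hσ, mem_univ _⟩
      have hix : IntervalIntegrable (fun σ => iteratedDeriv k (Fun (u σ)) x) volume t s :=
        (hcx.mono (uIcc_subset_Icc ht hs)).intervalIntegrable
      rw [intervalIntegral.integral_sub hix intervalIntegrable_const, hftc k x t s ht hs,
        intervalIntegral.integral_const, smul_eq_mul]
      have h4 : iteratedDeriv k (u s - u t - (s - t) • Fun (u t)) x =
          (D k ((⟨_, hmem s hs⟩ : X) - ⟨_, hmem t ht⟩ - (s - t) • ⟨_, hw t ht⟩)).1 x := rfl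
      rw [h4, map_sub, map_sub, map_smul]
      rfl
    · ring
  exact
    { mem := hmem
      mem' := hw
      bdd := h.hinf.bound
      bdd' := by
        intro k
        obtain ⟨L, -, hL⟩ := hFbd k
        refine ⟨L, fun t ht => ?_⟩
        have h1 := (hle k (FX (U t))).trans (hL t ht)
        rwa [hFU t ht] at h1
      cont := h.hinf.cont
      cont' := hcw
      der := hder
      derL2 := by
        intro k t ht δ hδ
        obtain ⟨C, hC0, hC⟩ := hL3 k
        refine ⟨min 1 (δ / (C + 1)), by positivity, fun s hs hst => ?_⟩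
        refine (hC t ht s hs).trans ?_
        have h1 : |s - t| ≤ 1 := hst.trans (min_le_left _ _)
        have h2 : |s - t| ≤ δ / (C + 1) := hst.trans (min_le_right _ _)
        have h3 : (s - t) ^ 2 ≤ |s - t| := by
          rw [← sq_abs]
          nlinarith [abs_nonneg (s - t)]
        have h4 : C * (s - t) ^ 2 ≤ δ := by
          calc C * (s - t) ^ 2 ≤ C * (δ / (C + 1)) := mul_le_mul_of_nonneg_left (h3.trans h2) hC0
            _ = δ * (C / (C + 1)) := by ring
            _ ≤ δ * 1 := by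
                apply mul_le_mul_of_nonneg_left _ hδ.le
                rw [div_le_one (by positivity)]
                linarith
            _ = δ := mul_one δ
        calc C * (s - t) ^ 4 = C * (s - t) ^ 2 * (s - t) ^ 2 := by ring
          _ ≤ δ * (s - t) ^ 2 := mul_le_mul_of_nonneg_right h4 (sq_nonneg _) }

end Pool.Agent.Helper8.KL
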