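import Pool.Agent.Helper36.KL.Goals

/-!
# Quintic gKdV: a priori bound of the norm of order `3` by the `H¹` norm (modified energy)
-/

namespace Pool.Agent.Helper8.KL

open Set Filter Topology MeasureTheory Pool.Agent.Helper36.KL
open scoped ContDiff

/-- Gronwall -/
theorem gron {f f' : ℝ → ℝ} {a b C : ℝ} (h : ∀ t ∈ Icc a b, HasDerivWithinAt f (f' t) (Icc a b) t)
    (hle : ∀ t ∈ Icc a b, f' t ≤ C * f t) : ∀ t ∈ Icc a b, f t ≤ Real.exp (C * (t - a)) * f a := by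
  intro t ht
  have hg : ∀ s ∈ Icc a b, HasDerivWithinAt (fun s => Real.exp (-(C * (s - a))) * f s)
      (Real.exp (-(C * (s - a))) * (f' s - C * f s)) (Icc a b) s := by
    intro s hs
    have h1 : HasDerivWithinAt (fun s : ℝ => -(C * (s - a))) (-(C * 1)) (Icc a b) s :=
      (((hasDerivAt_id s).sub_const a).const_mul C).neg.hasDerivWithinAt
    refine (h1.exp.mul (h s hs)).congr_deriv ?_
    ring
  have hanti : AntitoneOn (fun s => Real.exp (-(C * (s - a))) * f s) (Icc a b) := by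
    apply antitoneOn_of_deriv_nonpos (convex_Icc a b)
    · intro s hs
      exact (hg s hs).continuousWithinAt
    · intro s hs
      rw [interior_Icc] at hs
      exact ((hg s (Ioo_subset_Icc_self hs)).hasDerivAt (Icc_mem_nhds hs.1 hs.2)).differentiableAt.differentiableWithinAt
    · intro s hs
      rw [interior_Icc] at hs
      have hs' := Ioo_subset_Icc_self hs
      rw [((hg s hs').hasDerivAt (Icc_mem_nhds hs.1 hs.2)).deriv]
      have h1 := hle s hs'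
      exact mul_nonpos_of_nonneg_of_nonpos (Real.exp_pos _).le (by linarith)
  have ha : a ∈ Icc a b := ⟨le_rfl, ht.1.trans ht.2⟩
  have h1 : Real.exp (-(C * (t - a))) * f t ≤ Real.exp (-(C * (a - a))) * f a := hanti ha ht ht.1
  rw [sub_self, mul_zero, neg_zero, Real.exp_zero, one_mul] at h1
  have h2 : Real.exp (C * (t - a)) * (Real.exp (-(C * (t - a))) * f t) = f t := by
    rw [← mul_assoc, ← Real.exp_add, add_neg_cancel, Real.exp_zero, one_mul]
  rw [← h2]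
  exact mul_le_mul_of_nonneg_left h1 (Real.exp_pos _).le

/-- Sobolev bound with a weight -/
theorem sup_sq_le' {u : ℝ → ℝ} (hu : u ∈ HI) {l : ℝ} (hl : 0 < l) (x : ℝ) :
    u x ^ 2 ≤ l * (∫ y, u y ^ 2) + l⁻¹ * ∫ y, iteratedDeriv 1 u y ^ 2 := by
  have hd : ∀ y ∈ Iic x, HasDerivAt (fun y => u y ^ 2) (2 * (u y * iteratedDeriv 1 u y)) y := by
    intro y _
    have h1 : HasDerivAt u (iteratedDeriv 1 u y) y := by
      simpa using hasDerivAt_iter hu.1 0 y
    have h2 := h1.pow 2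
    refine h2.congr_deriv ?_
    push_cast
    ring
  have hi1 := int_sq hu
  have hi2 := int_sq (iter_mem hu 1)
  have hi3 : Integrable (fun y => 2 * (u y * iteratedDeriv 1 u y)) :=
    (int_mul hu (iter_mem hu 1)).const_mul 2
  have ht := tendsto_zero_of_hasDerivAt_of_integrableOn_Iic hd hi3.integrableOn hi1.integrableOn
  have h := integral_Iic_of_hasDerivAt_of_tendsto' hd hi3.integrableOn ht
  rw [sub_zero] at h
  rw [← h, ← integral_const_mul, ← integral_const_mul, ← integral_add (hi1.const_mul l) (hi2.const_mul l⁻¹)]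
  refine (setIntegral_mono hi3.integrableOn ((hi1.const_mul l).add (hi2.const_mul l⁻¹)).integrableOn
    fun y => ?_).trans
    (setIntegral_le_integral ((hi1.const_mul l).add (hi2.const_mul l⁻¹)) (ae_of_all _ fun y => by
      simp only [Pi.add_apply, Pi.zero_apply]; positivity))
  simp only [Pi.add_apply]
  have h1 : 0 ≤ l⁻¹ * (l * u y - iteratedDeriv 1 u y) ^ 2 := by positivity
  have h2 : l⁻¹ * (l * u y - iteratedDeriv 1 u y) ^ 2 =
      l * u y ^ 2 - 2 * (u y * iteratedDeriv 1 u y) + l⁻¹ * iteratedDeriv 1 u y ^ 2 := by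
    field_simp
    ring
  linarith

theorem hd0 {u : ℝ → ℝ} (hu : u ∈ HI) (x : ℝ) : HasDerivAt u (iteratedDeriv 1 u x) x := by
  simpa using hasDerivAt_iter hu.1 0 x

theorem Fun_eq {u : ℝ → ℝ} (hu : u ∈ HI) :
    Fun u = fun x => - iteratedDeriv 3 u x - 5 * u x ^ 4 * iteratedDeriv 1 u x := by
  funext x
  have h1 : iteratedDeriv 1 (u ^ 5) x = 5 * u x ^ 4 * iteratedDeriv 1 u x := by
    rw [iteratedDeriv_one]
    have h2 := ((hd0 hu x).pow 5).deriv
    rw [h2]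
    norm_num
  simp only [Fun, Pi.sub_apply, Pi.neg_apply, h1]

theorem Fun1_eq {u : ℝ → ℝ} (hu : u ∈ HI) :
    iteratedDeriv 1 (Fun u) = fun x => - iteratedDeriv 4 u x - 5 * u x ^ 4 * iteratedDeriv 2 u x
      - 20 * u x ^ 3 * iteratedDeriv 1 u x ^ 2 := by
  rw [Fun_eq hu, iteratedDeriv_one]
  funext x
  have h0 := hd0 hu x
  have h1 := hasDerivAt_iter hu.1 1 x
  have h3 := hasDerivAt_iter hu.1 3 x
  have h4 := (h3.neg.sub (((h0.pow 4).const_mul 5).mul h1))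
  refine (HasDerivAt.deriv (h4.congr_deriv ?_))
  simp only [Pi.pow_apply, Nat.reduceAdd]
  push_cast
  ring

theorem Fun2_eq {u : ℝ → ℝ} (hu : u ∈ HI) :
    iteratedDeriv 2 (Fun u) = fun x => - iteratedDeriv 5 u x - 5 * u x ^ 4 * iteratedDeriv 3 u x
      - 60 * u x ^ 3 * iteratedDeriv 1 u x * iteratedDeriv 2 u x
      - 60 * u x ^ 2 * iteratedDeriv 1 u x ^ 3 := by
  rw [iteratedDeriv_succ, Fun1_eq hu]
  funext x
  have h0 := hd0 hu x
  have h1 := hasDerivAt_iter hu.1 1 x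
  have h2 := hasDerivAt_iter hu.1 2 x
  have h4 := hasDerivAt_iter hu.1 4 x
  have h5 := ((h4.neg.sub (((h0.pow 4).const_mul 5).mul h2)).sub (((h0.pow 3).const_mul 20).mul (h1.pow 2)))
  refine (HasDerivAt.deriv (h5.congr_deriv ?_))
  simp only [Pi.pow_apply, Nat.reduceAdd]
  push_cast
  ring

/-- the weight `u² u_x` -/
noncomputable def ww (u : ℝ → ℝ) : ℝ → ℝ := (u * u) * iteratedDeriv 1 u

noncomputable def ww' (u : ℝ → ℝ) : ℝ → ℝ :=
  (Fun u * u + u * Fun u) * iteratedDeriv 1 u + (u * u) * iteratedDeriv 1 (Fun u)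

theorem ww_mem {u : ℝ → ℝ} (hu : u ∈ HI) : ww u ∈ HI := mul_mem (mul_mem hu hu) (iter_mem hu 1)

theorem ww'_mem {u : ℝ → ℝ} (hu : u ∈ HI) : ww' u ∈ HI :=
  HI.add_mem (mul_mem (HI.add_mem (mul_mem (Fun_mem hu) hu) (mul_mem hu (Fun_mem hu))) (iter_mem hu 1))
    (mul_mem (mul_mem hu hu) (iter_mem (Fun_mem hu) 1))

/-- the potential of the total derivative -/
noncomputable def QQ (u : ℝ → ℝ) (x : ℝ) : ℝ :=
  (-2 * (iteratedDeriv 2 u x * iteratedDeriv 4 u x) + iteratedDeriv 3 u x * iteratedDeriv 3 u x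
    - 5 * (u x ^ 4 * iteratedDeriv 2 u x * iteratedDeriv 2 u x)
    - 30 * (u x ^ 2 * iteratedDeriv 1 u x ^ 3 * iteratedDeriv 1 u x))
  - 25 / 3 * (-2 * (u x ^ 4 * iteratedDeriv 1 u x * iteratedDeriv 3 u x)
    + 4 * (u x ^ 3 * iteratedDeriv 1 u x ^ 2 * iteratedDeriv 2 u x)
    + u x ^ 4 * iteratedDeriv 2 u x * iteratedDeriv 2 u x
    - 3 * (u x ^ 2 * iteratedDeriv 1 u x ^ 3 * iteratedDeriv 1 u x)
    - 5 * (u x ^ 8 * iteratedDeriv 1 u x * iteratedDeriv 1 u x))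

theorem QQ_int {u : ℝ → ℝ} (hu : u ∈ HI) : Integrable (QQ u) := by
  have m1 := iter_mem hu 1
  have m2 := iter_mem hu 2
  have m3 := iter_mem hu 3
  have m4 := iter_mem hu 4
  have i1 : Integrable (fun x => iteratedDeriv 2 u x * iteratedDeriv 4 u x) := int_mul m2 m4
  have i2 : Integrable (fun x => iteratedDeriv 3 u x * iteratedDeriv 3 u x) := int_mul m3 m3
  have i3 : Integrable (fun x => u x ^ 4 * iteratedDeriv 2 u x * iteratedDeriv 2 u x) :=
    int_mul (mul_mem (pow_mem hu 3) m2) m2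
  have i4 : Integrable (fun x => u x ^ 2 * iteratedDeriv 1 u x ^ 3 * iteratedDeriv 1 u x) :=
    int_mul (mul_mem (pow_mem hu 1) (pow_mem m1 2)) m1
  have i5 : Integrable (fun x => u x ^ 4 * iteratedDeriv 1 u x * iteratedDeriv 3 u x) :=
    int_mul (mul_mem (pow_mem hu 3) m1) m3
  have i6 : Integrable (fun x => u x ^ 3 * iteratedDeriv 1 u x ^ 2 * iteratedDeriv 2 u x) :=
    int_mul (mul_mem (pow_mem hu 2) (pow_mem m1 1)) m2
  have i7 : Integrable (fun x => u x ^ 8 * iteratedDeriv 1 u x * iteratedDeriv 1 u x) :=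
    int_mul (mul_mem (pow_mem hu 7) m1) m1
  exact ((((i1.const_mul (-2)).add i2).sub (i3.const_mul 5)).sub (i4.const_mul 30)).sub
    ((((((i5.const_mul (-2)).add (i6.const_mul 4)).add i3).sub (i4.const_mul 3)).sub
      (i7.const_mul 5)).const_mul (25 / 3))

/-- the integrand of the time derivative of the modified energy -/
noncomputable def GG (u : ℝ → ℝ) (x : ℝ) : ℝ :=
  (iteratedDeriv 2 (Fun u) x * iteratedDeriv 2 u x + iteratedDeriv 2 u x * iteratedDeriv 2 (Fun u) x)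
  - 25 / 3 * (ww' u x * ww u x + ww u x * ww' u x)
  - (10 * (u x * iteratedDeriv 1 u x ^ 4 * iteratedDeriv 1 u x)
    + 500 / 3 * (u x ^ 7 * iteratedDeriv 1 u x ^ 2 * iteratedDeriv 1 u x))

theorem GG_int {u : ℝ → ℝ} (hu : u ∈ HI) : ∫ x, GG u x = 0 := by
  have m1 := iter_mem hu 1
  have m2 := iter_mem hu 2
  have i1 : Integrable (fun x => iteratedDeriv 2 (Fun u) x * iteratedDeriv 2 u x) :=
    int_mul (iter_mem (Fun_mem hu) 2) m2
  have i2 : Integrable (fun x => iteratedDeriv 2 u x * iteratedDeriv 2 (Fun u) x) :=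
    int_mul m2 (iter_mem (Fun_mem hu) 2)
  have i3 : Integrable (fun x => ww' u x * ww u x) := int_mul (ww'_mem hu) (ww_mem hu)
  have i4 : Integrable (fun x => ww u x * ww' u x) := int_mul (ww_mem hu) (ww'_mem hu)
  have i5 : Integrable (fun x => u x * iteratedDeriv 1 u x ^ 4 * iteratedDeriv 1 u x) :=
    int_mul (mul_mem hu (pow_mem m1 3)) m1
  have i6 : Integrable (fun x => u x ^ 7 * iteratedDeriv 1 u x ^ 2 * iteratedDeriv 1 u x) :=
    int_mul (mul_mem (pow_mem hu 6) (pow_mem m1 1)) m1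
  apply integral_eq_zero_of_hasDerivAt_of_integrable (f := QQ u) _ _ (QQ_int hu)
  · intro x
    have h0 := hd0 hu x
    have h1 := hasDerivAt_iter hu.1 1 x
    have h2 := hasDerivAt_iter hu.1 2 x
    have h3 := hasDerivAt_iter hu.1 3 x
    have h4 := hasDerivAt_iter hu.1 4 x
    have q1 := h2.mul h4
    have q2 := h3.mul h3
    have q3 := ((h0.pow 4).mul h2).mul h2
    have q4 := ((h0.pow 2).mul (h1.pow 3)).mul h1
    have q5 := ((h0.pow 4).mul h1).mul h3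
    have q6 := ((h0.pow 3).mul (h1.pow 2)).mul h2
    have q7 := ((h0.pow 8).mul h1).mul h1
    have q := ((((q1.const_mul (-2)).add q2).sub (q3.const_mul 5)).sub (q4.const_mul 30)).sub
      ((((((q5.const_mul (-2)).add (q6.const_mul 4)).add q3).sub (q4.const_mul 3)).sub
        (q7.const_mul 5)).const_mul (25 / 3))
    refine q.congr_deriv ?_
    unfold GG ww ww'
    simp only [Pi.add_apply, Pi.mul_apply, Pi.pow_apply, Fun2_eq hu, Fun1_eq hu, Nat.reduceAdd]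
    rw [Fun_eq hu]
    push_cast
    ring
  · exact ((i1.add i2).sub ((i3.add i4).const_mul (25 / 3))).sub
      ((i5.const_mul 10).add (i6.const_mul (500 / 3)))

theorem abs_le_one_add (x : ℝ) : |x| ≤ 1 + x ^ 4 := by
  rw [abs_le]
  constructor <;> nlinarith [sq_nonneg (x ^ 2 - 1), sq_nonneg (x + 1), sq_nonneg (x - 1), sq_nonneg x]

theorem abs_pow_le_one_add (x : ℝ) : |x ^ 3| ≤ 1 + x ^ 4 := by
  rw [abs_le]
  constructor <;> nlinarith [sq_nonneg (x ^ 2 - x), sq_nonneg (x ^ 2 + x), sq_nonneg (x + 1), sq_nonneg (x - 1),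
    sq_nonneg x, sq_nonneg (x ^ 2 - 1)]

theorem abs_pow7_le (x : ℝ) : |x ^ 7| ≤ 1 + (x ^ 2) ^ 4 := by
  have h : |x ^ 7| = |x| ^ 7 := abs_pow x 7
  have h2 : (x ^ 2) ^ 4 = |x| ^ 8 := by rw [← sq_abs x]; ring
  rw [h, h2]
  have h3 := abs_nonneg x
  rcases le_total |x| 1 with h4 | h4
  · have h5 : |x| ^ 7 ≤ 1 := pow_le_one₀ h3 h4
    have h6 : 0 ≤ |x| ^ 8 := by positivity
    linarith
  · have h5 : |x| ^ 7 ≤ |x| ^ 8 := pow_le_pow_right₀ h4 (by norm_num)
    linarith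

section bounds

variable {u : ℝ → ℝ} {K : ℝ}

theorem bnd_u (hu : u ∈ HI) (hK : (∫ x, u x ^ 2) + ∫ x, iteratedDeriv 1 u x ^ 2 ≤ K) (x : ℝ) :
    u x ^ 2 ≤ K := (sup_sq_le hu x).trans hK

theorem bnd_u1 (hu : u ∈ HI) (hK : (∫ x, u x ^ 2) + ∫ x, iteratedDeriv 1 u x ^ 2 ≤ K) (x : ℝ) :
    iteratedDeriv 1 u x ^ 4 ≤ (K + 1) ^ 2 * (1 + ∫ y, iteratedDeriv 2 u y ^ 2) := by
  have hY : 0 ≤ ∫ y, iteratedDeriv 2 u y ^ 2 := integral_nonneg fun y => sq_nonneg _
  have hl : 0 < Real.sqrt (1 + ∫ y, iteratedDeriv 2 u y ^ 2) := Real.sqrt_pos.mpr (by linarith)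
  have hl2 : Real.sqrt (1 + ∫ y, iteratedDeriv 2 u y ^ 2) ^ 2 = 1 + ∫ y, iteratedDeriv 2 u y ^ 2 :=
    Real.sq_sqrt (by linarith)
  have h := sup_sq_le' (iter_mem hu 1) hl x
  rw [iter_iter] at h
  have h0 : 0 ≤ ∫ x, u x ^ 2 := integral_nonneg fun y => sq_nonneg _
  have h1 : ∫ x, iteratedDeriv 1 u x ^ 2 ≤ K := by linarith
  have h2 : (Real.sqrt (1 + ∫ y, iteratedDeriv 2 u y ^ 2))⁻¹ * ∫ y, iteratedDeriv 2 u y ^ 2 ≤
      Real.sqrt (1 + ∫ y, iteratedDeriv 2 u y ^ 2) := by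
    rw [inv_mul_le_iff₀ hl, ← pow_two, hl2]
    linarith
  have h3 : iteratedDeriv 1 u x ^ 2 ≤ (K + 1) * Real.sqrt (1 + ∫ y, iteratedDeriv 2 u y ^ 2) := by
    have h4 := mul_le_mul_of_nonneg_left h1 hl.le
    simp only [Nat.reduceAdd] at h
    linarith
  calc iteratedDeriv 1 u x ^ 4 = (iteratedDeriv 1 u x ^ 2) ^ 2 := by ring
    _ ≤ ((K + 1) * Real.sqrt (1 + ∫ y, iteratedDeriv 2 u y ^ 2)) ^ 2 :=
        pow_le_pow_left₀ (sq_nonneg _) h3 2
    _ = _ := by rw [mul_pow, hl2]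

/-- the constant in the energy inequality -/
noncomputable def MM (K : ℝ) : ℝ := (10 * (1 + K) + 500 / 3 * (1 + K ^ 4)) * (2 * (K + 1) ^ 2)

theorem MM_nonneg (hK0 : 0 ≤ K) : 0 ≤ MM K := by unfold MM; positivity

theorem hh_le (hu : u ∈ HI) (hK0 : 0 ≤ K) (hK : (∫ x, u x ^ 2) + ∫ x, iteratedDeriv 1 u x ^ 2 ≤ K) (x : ℝ) :
    10 * (u x * iteratedDeriv 1 u x ^ 4 * iteratedDeriv 1 u x)
      + 500 / 3 * (u x ^ 7 * iteratedDeriv 1 u x ^ 2 * iteratedDeriv 1 u x) ≤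
    MM K * (1 + ∫ y, iteratedDeriv 2 u y ^ 2) * iteratedDeriv 1 u x ^ 2 := by
  have hY : 0 ≤ ∫ y, iteratedDeriv 2 u y ^ 2 := integral_nonneg fun y => sq_nonneg _
  have hu2 := bnd_u hu hK x
  have hp4 := bnd_u1 hu hK x
  generalize (∫ y, iteratedDeriv 2 u y ^ 2) = Y at *
  generalize iteratedDeriv 1 u x = p at *
  generalize u x = a at *
  have hR : 1 + p ^ 4 ≤ 2 * (K + 1) ^ 2 * (1 + Y) := by
    have h1 : 1 ≤ (K + 1) ^ 2 * (1 + Y) := by nlinarith [mul_nonneg hK0 hY, sq_nonneg K]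
    linarith
  have hR0 : 0 ≤ 1 + p ^ 4 := by positivity
  have ha1 : |a| ≤ 1 + K := by
    have h1 : |a| ≤ 1 + a ^ 2 := by
      rw [abs_le]
      constructor <;> nlinarith [sq_nonneg (a + 1), sq_nonneg (a - 1)]
    linarith
  have ha7 : |a ^ 7| ≤ 1 + K ^ 4 := by
    have h1 := abs_pow7_le a
    have h2 : (a ^ 2) ^ 4 ≤ K ^ 4 := pow_le_pow_left₀ (sq_nonneg _) hu2 4
    linarith
  have h1 : a * p ^ 3 ≤ (1 + K) * (1 + p ^ 4) := by
    calc a * p ^ 3 ≤ |a * p ^ 3| := le_abs_self _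
      _ = |a| * |p ^ 3| := abs_mul _ _
      _ ≤ (1 + K) * (1 + p ^ 4) := mul_le_mul ha1 (abs_pow_le_one_add p) (abs_nonneg _) (by linarith)
  have h2 : a ^ 7 * p ≤ (1 + K ^ 4) * (1 + p ^ 4) := by
    calc a ^ 7 * p ≤ |a ^ 7 * p| := le_abs_self _
      _ = |a ^ 7| * |p| := abs_mul _ _
      _ ≤ (1 + K ^ 4) * (1 + p ^ 4) := mul_le_mul ha7 (abs_le_one_add p) (abs_nonneg _) (by positivity)
  have h3 : 10 * (a * p ^ 3) + 500 / 3 * (a ^ 7 * p) ≤ MM K * (1 + Y) := by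
    calc 10 * (a * p ^ 3) + 500 / 3 * (a ^ 7 * p)
        ≤ (10 * (1 + K) + 500 / 3 * (1 + K ^ 4)) * (1 + p ^ 4) := by linarith
      _ ≤ (10 * (1 + K) + 500 / 3 * (1 + K ^ 4)) * (2 * (K + 1) ^ 2 * (1 + Y)) :=
          mul_le_mul_of_nonneg_left hR (by positivity)
      _ = _ := by unfold MM; ring
  have h4 := mul_le_mul_of_nonneg_right h3 (sq_nonneg p)
  calc 10 * (a * p ^ 4 * p) + 500 / 3 * (a ^ 7 * p ^ 2 * p)
      = (10 * (a * p ^ 3) + 500 / 3 * (a ^ 7 * p)) * p ^ 2 := by ring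
    _ ≤ _ := h4

/-- the derivative of the modified energy -/
theorem dE_le (hu : u ∈ HI) (hK0 : 0 ≤ K) (hK : (∫ x, u x ^ 2) + ∫ x, iteratedDeriv 1 u x ^ 2 ≤ K) :
    ((∫ x, iteratedDeriv 2 (Fun u) x * iteratedDeriv 2 u x) + ∫ x, iteratedDeriv 2 u x * iteratedDeriv 2 (Fun u) x)
      - 25 / 3 * ((∫ x, ww' u x * ww u x) + ∫ x, ww u x * ww' u x) ≤
    MM K * K * (1 + ∫ y, iteratedDeriv 2 u y ^ 2) := by
  have m1 := iter_mem hu 1
  have m2 := iter_mem hu 2
  have i1 : Integrable (fun x => iteratedDeriv 2 (Fun u) x * iteratedDeriv 2 u x) :=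
    int_mul (iter_mem (Fun_mem hu) 2) m2
  have i2 : Integrable (fun x => iteratedDeriv 2 u x * iteratedDeriv 2 (Fun u) x) :=
    int_mul m2 (iter_mem (Fun_mem hu) 2)
  have i3 : Integrable (fun x => ww' u x * ww u x) := int_mul (ww'_mem hu) (ww_mem hu)
  have i4 : Integrable (fun x => ww u x * ww' u x) := int_mul (ww_mem hu) (ww'_mem hu)
  have i5 : Integrable (fun x => u x * iteratedDeriv 1 u x ^ 4 * iteratedDeriv 1 u x) :=
    int_mul (mul_mem hu (pow_mem m1 3)) m1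
  have i6 : Integrable (fun x => u x ^ 7 * iteratedDeriv 1 u x ^ 2 * iteratedDeriv 1 u x) :=
    int_mul (mul_mem (pow_mem hu 6) (pow_mem m1 1)) m1
  have i12 : Integrable (fun x => iteratedDeriv 2 (Fun u) x * iteratedDeriv 2 u x +
    iteratedDeriv 2 u x * iteratedDeriv 2 (Fun u) x) := i1.add i2
  have i34 : Integrable (fun x => 25 / 3 * (ww' u x * ww u x + ww u x * ww' u x)) := (i3.add i4).const_mul _
  have i56 : Integrable (fun x => 10 * (u x * iteratedDeriv 1 u x ^ 4 * iteratedDeriv 1 u x)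
    + 500 / 3 * (u x ^ 7 * iteratedDeriv 1 u x ^ 2 * iteratedDeriv 1 u x)) :=
    (i5.const_mul 10).add (i6.const_mul (500 / 3))
  have h := GG_int hu
  unfold GG at h
  have e1 : ∫ x, (iteratedDeriv 2 (Fun u) x * iteratedDeriv 2 u x + iteratedDeriv 2 u x * iteratedDeriv 2 (Fun u) x)
      - 25 / 3 * (ww' u x * ww u x + ww u x * ww' u x)
      - (10 * (u x * iteratedDeriv 1 u x ^ 4 * iteratedDeriv 1 u x)
        + 500 / 3 * (u x ^ 7 * iteratedDeriv 1 u x ^ 2 * iteratedDeriv 1 u x)) =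
      (((∫ x, iteratedDeriv 2 (Fun u) x * iteratedDeriv 2 u x) +
        ∫ x, iteratedDeriv 2 u x * iteratedDeriv 2 (Fun u) x)
      - 25 / 3 * ((∫ x, ww' u x * ww u x) + ∫ x, ww u x * ww' u x)) -
      ∫ x, (10 * (u x * iteratedDeriv 1 u x ^ 4 * iteratedDeriv 1 u x)
        + 500 / 3 * (u x ^ 7 * iteratedDeriv 1 u x ^ 2 * iteratedDeriv 1 u x)) := by
    have i1234 : Integrable (fun x => iteratedDeriv 2 (Fun u) x * iteratedDeriv 2 u x +
      iteratedDeriv 2 u x * iteratedDeriv 2 (Fun u) x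
      - 25 / 3 * (ww' u x * ww u x + ww u x * ww' u x)) := i12.sub i34
    rw [integral_sub i1234 i56, integral_sub i12 i34, integral_add i1 i2, integral_const_mul,
      integral_add i3 i4]
  rw [e1] at h
  have h2 : ∫ x, (10 * (u x * iteratedDeriv 1 u x ^ 4 * iteratedDeriv 1 u x)
        + 500 / 3 * (u x ^ 7 * iteratedDeriv 1 u x ^ 2 * iteratedDeriv 1 u x)) ≤
      ∫ x, MM K * (1 + ∫ y, iteratedDeriv 2 u y ^ 2) * iteratedDeriv 1 u x ^ 2 :=
    integral_mono i56 ((int_sq m1).const_mul _) fun x => hh_le hu hK0 hK x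
  rw [integral_const_mul] at h2
  have hY : 0 ≤ ∫ y, iteratedDeriv 2 u y ^ 2 := integral_nonneg fun y => sq_nonneg _
  have h0 : 0 ≤ ∫ x, u x ^ 2 := integral_nonneg fun y => sq_nonneg _
  have h3 : ∫ x, iteratedDeriv 1 u x ^ 2 ≤ K := by linarith
  have h4 : MM K * (1 + ∫ y, iteratedDeriv 2 u y ^ 2) * (∫ x, iteratedDeriv 1 u x ^ 2) ≤
      MM K * (1 + ∫ y, iteratedDeriv 2 u y ^ 2) * K :=
    mul_le_mul_of_nonneg_left h3 (mul_nonneg (MM_nonneg hK0) (by linarith))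
  have h5 : MM K * (1 + ∫ y, iteratedDeriv 2 u y ^ 2) * K = MM K * K * (1 + ∫ y, iteratedDeriv 2 u y ^ 2) := by
    ring
  linarith

theorem ww_le (hu : u ∈ HI) (hK : (∫ x, u x ^ 2) + ∫ x, iteratedDeriv 1 u x ^ 2 ≤ K) :
    0 ≤ (∫ x, ww u x * ww u x) ∧ ∫ x, ww u x * ww u x ≤ K ^ 3 := by
  refine ⟨integral_nonneg fun x => mul_self_nonneg _, ?_⟩
  have m1 := iter_mem hu 1
  have h2 : ∫ x, ww u x * ww u x ≤ ∫ x, K ^ 2 * iteratedDeriv 1 u x ^ 2 := by
    apply integral_mono (int_mul (ww_mem hu) (ww_mem hu)) ((int_sq m1).const_mul _)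
    intro x
    have h3 := bnd_u hu hK x
    have h4 : (u x ^ 2) ^ 2 ≤ K ^ 2 := pow_le_pow_left₀ (sq_nonneg _) h3 2
    have h5 := mul_le_mul_of_nonneg_right h4 (sq_nonneg (iteratedDeriv 1 u x))
    have h6 : ww u x * ww u x = (u x ^ 2) ^ 2 * iteratedDeriv 1 u x ^ 2 := by
      unfold ww
      simp only [Pi.mul_apply]
      ring
    show ww u x * ww u x ≤ K ^ 2 * iteratedDeriv 1 u x ^ 2
    rw [h6]
    exact h5
  rw [integral_const_mul] at h2
  have h0 : 0 ≤ ∫ x, u x ^ 2 := integral_nonneg fun y => sq_nonneg _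
  have h3 : ∫ x, iteratedDeriv 1 u x ^ 2 ≤ K := by linarith
  have h4 : K ^ 2 * (∫ x, iteratedDeriv 1 u x ^ 2) ≤ K ^ 2 * K := mul_le_mul_of_nonneg_left h3 (sq_nonneg _)
  linarith [h4, show K ^ 2 * K = K ^ 3 by ring]

end bounds

theorem BB_nonneg (m : ℕ) (v : X) : 0 ≤ BB m v v := by
  rw [BB_apply]
  exact Finset.sum_nonneg fun k _ => integral_nonneg fun x => mul_self_nonneg _

theorem ap : G_AP := by
  intro hC1R hPR hEN K Λ0 T
  obtain ⟨C, hC0, hC⟩ := hEN hPR 3 le_rfl (K + Real.exp (MM K * K * T) * (1 + Λ0 + 25 / 3 * K ^ 3))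
  refine ⟨|Λ0| + Real.exp (2 * C * T) * (1 + |Λ0|), ?_, ?_⟩
  · have h1 := le_abs_self Λ0
    have h2 : 0 ≤ Real.exp (2 * C * T) * (1 + |Λ0|) := by positivity
    linarith
  intro a b u hab hT hu hK hΛ
  have ha : a ∈ Icc a b := ⟨le_rfl, hab⟩
  have hT0 : 0 ≤ T := by linarith
  have hK0 : 0 ≤ K := by
    refine le_trans ?_ (hK a ha)
    exact add_nonneg (integral_nonneg fun y => sq_nonneg _) (integral_nonneg fun y => sq_nonneg _)
  have hΛ0 : 0 ≤ Λ0 := (BB_nonneg 3 (u a)).trans hΛ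
  have hMK : 0 ≤ MM K * K := mul_nonneg (MM_nonneg hK0) hK0
  have hmem : ∀ t, (u t).1 ∈ HI := fun t => (u t).2
  have hsq : ∀ (k : ℕ) (v : X), ∫ x, iteratedDeriv k v.1 x * iteratedDeriv k v.1 x =
      ∫ x, iteratedDeriv k v.1 x ^ 2 := by
    intro k v
    simp only [pow_two]
  have hC1 : C1 a b (fun t => (u t).1) (fun t => Fun (u t).1) := hu
  have hC1k : ∀ k, C1 a b (fun t => iteratedDeriv k (u t).1) (fun t => iteratedDeriv k (Fun (u t).1)) :=
    fun k => hC1R.2.1 a b _ _ k hC1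
  have hww : C1 a b (fun t => ww (u t).1) (fun t => ww' (u t).1) :=
    (hC1R.1 a b _ _ _ _ (hC1R.1 a b _ _ _ _ hC1 hC1).2 (hC1k 1)).2
  have hder := hC1R.2.2.2.2.2
  -- the modified energy
  have hZ := gron (f := fun t => 1 + ((∫ x, iteratedDeriv 2 (u t).1 x * iteratedDeriv 2 (u t).1 x)
      - 25 / 3 * ∫ x, ww (u t).1 x * ww (u t).1 x) + 25 / 3 * K ^ 3)
    (f' := fun t => ((∫ x, iteratedDeriv 2 (Fun (u t).1) x * iteratedDeriv 2 (u t).1 x)
        + ∫ x, iteratedDeriv 2 (u t).1 x * iteratedDeriv 2 (Fun (u t).1) x)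
      - 25 / 3 * ((∫ x, ww' (u t).1 x * ww (u t).1 x) + ∫ x, ww (u t).1 x * ww' (u t).1 x))
    (a := a) (b := b) (C := MM K * K)
    (by
      intro t ht
      exact (((hder a b _ _ _ _ (hC1k 2) (hC1k 2) t ht).sub
        ((hder a b _ _ _ _ hww hww t ht).const_mul (25 / 3))).const_add 1).add_const _)
    (by
      intro t ht
      refine (dE_le (hmem t) hK0 (hK t ht)).trans ?_
      apply mul_le_mul_of_nonneg_left _ hMK
      have h1 := (ww_le (hmem t) (hK t ht)).2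
      rw [hsq 2 (u t)]
      linarith)
  have hY : ∀ t ∈ Icc a b, ∫ x, iteratedDeriv 2 (u t).1 x ^ 2 ≤
      Real.exp (MM K * K * T) * (1 + Λ0 + 25 / 3 * K ^ 3) := by
    intro t ht
    have h1 := hZ t ht
    simp only [hsq] at h1
    have h2 := (ww_le (hmem t) (hK t ht)).2
    have h3 := (ww_le (hmem a) (hK a ha)).1
    have h4 : ∫ x, iteratedDeriv 2 (u a).1 x ^ 2 ≤ Λ0 := by
      refine le_trans ?_ hΛ
      rw [BB_apply, ← hsq]
      exact Finset.single_le_sum (f := fun k => ∫ x, iteratedDeriv k (u a).1 x * iteratedDeriv k (u a).1 x)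
        (fun k _ => integral_nonneg fun x => mul_self_nonneg _) (by simp : (2 : ℕ) ∈ Finset.range (3 + 1))
    have h5 : Real.exp (MM K * K * (t - a)) ≤ Real.exp (MM K * K * T) := by
      apply Real.exp_le_exp.mpr
      apply mul_le_mul_of_nonneg_left _ hMK
      linarith [ht.2]
    have h6 : 1 + ((∫ x, iteratedDeriv 2 (u a).1 x ^ 2) - 25 / 3 * ∫ x, ww (u a).1 x * ww (u a).1 x)
        + 25 / 3 * K ^ 3 ≤ 1 + Λ0 + 25 / 3 * K ^ 3 := by linarith
    have h7 : 0 ≤ 1 + Λ0 + 25 / 3 * K ^ 3 := by positivity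
    have h8 : Real.exp (MM K * K * (t - a)) * (1 + ((∫ x, iteratedDeriv 2 (u a).1 x ^ 2)
        - 25 / 3 * ∫ x, ww (u a).1 x * ww (u a).1 x) + 25 / 3 * K ^ 3) ≤
        Real.exp (MM K * K * T) * (1 + Λ0 + 25 / 3 * K ^ 3) :=
      (mul_le_mul_of_nonneg_left h6 (Real.exp_pos _).le).trans (mul_le_mul_of_nonneg_right h5 h7)
    linarith
  have hBB2 : ∀ t ∈ Icc a b, BB (3 - 1) (u t) (u t) ≤
      K + Real.exp (MM K * K * T) * (1 + Λ0 + 25 / 3 * K ^ 3) := by
    intro t ht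
    rw [BB_apply]
    have h1 := hY t ht
    have h2 := hK t ht
    simp only [hsq, Nat.reduceSub, Nat.reduceAdd, Finset.sum_range_succ, Finset.sum_range_zero, zero_add,
      iteratedDeriv_zero]
    linarith
  -- the norm of order three
  have h3 := gron (f := fun t => 1 + ∑ k ∈ Finset.range (3 + 1),
      ∫ x, iteratedDeriv k (u t).1 x * iteratedDeriv k (u t).1 x)
    (f' := fun t => ∑ k ∈ Finset.range (3 + 1),
      ((∫ x, iteratedDeriv k (Fun (u t).1) x * iteratedDeriv k (u t).1 x) +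
        ∫ x, iteratedDeriv k (u t).1 x * iteratedDeriv k (Fun (u t).1) x))
    (a := a) (b := b) (C := 2 * C)
    (by
      intro t ht
      exact (HasDerivWithinAt.fun_sum fun k _ => hder a b _ _ _ _ (hC1k k) (hC1k k) t ht).const_add 1)
    (by
      intro t ht
      have h4 := hC (u t) (hBB2 t ht)
      rw [BB_apply, BB_apply] at h4
      have h5 : ∑ k ∈ Finset.range (3 + 1),
          ((∫ x, iteratedDeriv k (Fun (u t).1) x * iteratedDeriv k (u t).1 x) +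
            ∫ x, iteratedDeriv k (u t).1 x * iteratedDeriv k (Fun (u t).1) x) =
          2 * ∑ k ∈ Finset.range (3 + 1), ∫ x, iteratedDeriv k (u t).1 x * iteratedDeriv k (FX (u t)).1 x := by
        rw [Finset.mul_sum]
        refine Finset.sum_congr rfl fun k _ => ?_
        have h6 : ∫ x, iteratedDeriv k (Fun (u t).1) x * iteratedDeriv k (u t).1 x =
            ∫ x, iteratedDeriv k (u t).1 x * iteratedDeriv k (Fun (u t).1) x := by
          simp only [mul_comm]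
        rw [h6]
        show _ = 2 * ∫ x, iteratedDeriv k (u t).1 x * iteratedDeriv k (Fun (u t).1) x
        ring
      show _ ≤ 2 * C * (1 + ∑ k ∈ Finset.range (3 + 1),
        ∫ x, iteratedDeriv k (u t).1 x * iteratedDeriv k (u t).1 x)
      rw [h5]
      linarith)
  intro t ht
  have h4 := h3 t ht
  simp only [← BB_apply] at h4
  have h5 : Real.exp (2 * C * (t - a)) ≤ Real.exp (2 * C * T) := by
    apply Real.exp_le_exp.mpr
    apply mul_le_mul_of_nonneg_left _ (by positivity)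
    linarith [ht.2]
  have h6 : Real.exp (2 * C * (t - a)) * (1 + BB 3 (u a) (u a)) ≤ Real.exp (2 * C * T) * (1 + |Λ0|) := by
    apply mul_le_mul h5 _ (by linarith [BB_nonneg 3 (u a)]) (Real.exp_pos _).le
    linarith [le_abs_self Λ0]
  linarith [abs_nonneg Λ0]

end Pool.Agent.Helper8.KL
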